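import Mathlib

/-!
# The numbers `|k log 2 - m log 5|`

Elementary Diophantine approximation of `log 2 / log 5`.
-/

namespace Pool.Agent.Helper32.HP

/-- `log 2 / log 5` -/
noncomputable def al : ℝ := Real.log 2 / Real.log 5

theorem log5_ge : (3 : ℝ) / 2 ≤ Real.log 5 := by
  have h2 : (0.6931471803 : ℝ) < Real.log 2 := Real.log_two_gt_d9
  have h : Real.log 4 = 2 * Real.log 2 := by
    rw [show (4 : ℝ) = 2 ^ 2 by norm_num, Real.log_pow]
    norm_num
  have h5 : Real.log 5 = Real.log 4 + Real.log (5 / 4) := by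
    rw [← Real.log_mul (by norm_num) (by norm_num)]
    norm_num
  have h6 : (1 : ℝ) / 5 ≤ Real.log (5 / 4) := by
    have := Real.one_sub_inv_le_log_of_pos (show (0 : ℝ) < 5 / 4 by norm_num)
    norm_num at this ⊢
    linarith
  rw [h5, h]
  linarith

theorem log5_pos : (0 : ℝ) < Real.log 5 := by
  have := log5_ge
  linarith

theorem log5_le : Real.log 5 ≤ 2 := by
  have h1 : Real.log 5 = 2 * Real.log (Real.sqrt 5) := by
    rw [Real.log_sqrt (by norm_num)]
    ring
  have h2 := Real.log_two_lt_d9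
  have h3 : Real.log 5 ≤ Real.log (32 / 6) := Real.log_le_log (by norm_num) (by norm_num)
  have h4 : Real.log 5 ≤ Real.log 4 + Real.log (5 / 4) := by
    rw [← Real.log_mul (by norm_num) (by norm_num)]
    norm_num
  have h5 : Real.log 4 = 2 * Real.log 2 := by
    rw [show (4 : ℝ) = 2 ^ 2 by norm_num, Real.log_pow]
    norm_num
  have h6 : Real.log (5 / 4) ≤ 1 / 4 := by
    have := Real.log_le_sub_one_of_pos (show (0 : ℝ) < 5 / 4 by norm_num)
    linarith
  linarith

/-- `|k log 2 - m log 5| = |k α - m| log 5` -/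
theorem lin_eq (k m : ℝ) :
    |k * Real.log 2 - m * Real.log 5| = |k * al - m| * Real.log 5 := by
  have h5 := log5_pos
  have h1 : k * Real.log 2 - m * Real.log 5 = (k * al - m) * Real.log 5 := by
    unfold al
    field_simp
  rw [h1, abs_mul, abs_of_pos h5]

/-- `|2 ^ k - 5 ^ m| ≥ 1` -/
theorem lin_ge (k m : ℕ) (hk : 1 ≤ k) :
    1 / 2 ^ (k + 1) ≤ |(k : ℝ) * Real.log 2 - (m : ℝ) * Real.log 5| := by
  have hne : (2 : ℕ) ^ k ≠ 5 ^ m := by
    intro h
    have h1 : 2 ∣ 5 ^ m := by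
      rw [← h]
      exact dvd_pow_self 2 (by omega)
    have h2 := Nat.prime_two.dvd_of_dvd_pow h1
    omega
  have hx : (0 : ℝ) < 2 ^ k := by positivity
  have hy : (0 : ℝ) < 5 ^ m := by positivity
  have hlog : (k : ℝ) * Real.log 2 - (m : ℝ) * Real.log 5 = Real.log (2 ^ k / 5 ^ m) := by
    rw [Real.log_div hx.ne' hy.ne', Real.log_pow, Real.log_pow]
  have h2k : (2 : ℝ) ^ (k + 1) = 2 * 2 ^ k := by rw [pow_succ]; ring
  have hk1 : (2 : ℝ) ≤ 2 ^ k := by
    calc (2 : ℝ) = 2 ^ 1 := by norm_num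
      _ ≤ 2 ^ k := pow_le_pow_right₀ (by norm_num) hk
  rw [hlog]
  rcases lt_or_gt_of_ne hne with h | h
  · -- 2 ^ k < 5 ^ m
    have h1 : (2 : ℝ) ^ k + 1 ≤ 5 ^ m := by exact_mod_cast h
    have h3 : Real.log (2 ^ k / 5 ^ m) ≤ 0 := by
      apply Real.log_nonpos (by positivity)
      rw [div_le_one hy]
      linarith
    rw [abs_of_nonpos h3, ← Real.log_inv, inv_div]
    have h4 := Real.one_sub_inv_le_log_of_pos (show (0 : ℝ) < 5 ^ m / 2 ^ k by positivity)
    refine le_trans ?_ h4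
    rw [inv_div, h2k]
    have h5 : (2 : ℝ) ^ k / 5 ^ m ≤ 2 ^ k / (2 ^ k + 1) :=
      div_le_div_of_nonneg_left hx.le (by linarith) h1
    have h6 : (1 : ℝ) / (2 * 2 ^ k) ≤ 1 - 2 ^ k / (2 ^ k + 1) := by
      rw [one_sub_div (by linarith), add_sub_cancel_left]
      apply one_div_le_one_div_of_le <;> linarith
    linarith
  · have h1 : (5 : ℝ) ^ m + 1 ≤ 2 ^ k := by exact_mod_cast h
    have h3 : 0 ≤ Real.log (2 ^ k / 5 ^ m) := by
      apply Real.log_nonneg
      rw [le_div_iff₀ hy]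
      linarith
    rw [abs_of_nonneg h3]
    have h4 := Real.one_sub_inv_le_log_of_pos (show (0 : ℝ) < 2 ^ k / 5 ^ m by positivity)
    refine le_trans ?_ h4
    rw [inv_div, h2k]
    have h5 : (5 : ℝ) ^ m / 2 ^ k ≤ (2 ^ k - 1) / 2 ^ k := by
      apply div_le_div_of_nonneg_right _ hx.le
      linarith
    have h6 : (1 : ℝ) / (2 * 2 ^ k) ≤ 1 - (2 ^ k - 1) / 2 ^ k := by
      rw [one_sub_div (by linarith), sub_sub_cancel]
      apply one_div_le_one_div_of_le <;> linarith
    linarith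

theorem al_nonneg : 0 ≤ al := div_nonneg (Real.log_nonneg (by norm_num)) log5_pos.le

/-- the same for integers -/
theorem al_ge (k : ℕ) (m : ℤ) (hk : 1 ≤ k) : 1 / 2 ^ (k + 2) ≤ |(k : ℝ) * al - m| := by
  have h5 := log5_pos
  have h5' := log5_le
  have hpow : (1 : ℝ) / 2 ^ (k + 2) = 1 / 2 ^ (k + 1) / 2 := by
    rw [pow_succ (2 : ℝ) (k + 1), div_div]
  rcases le_or_gt 0 m with hm | hm
  · obtain ⟨n, rfl⟩ := Int.eq_ofNat_of_zero_le hm
    have h1 := lin_ge k n hk
    rw [lin_eq] at h1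
    push_cast
    rw [hpow, div_le_iff₀ (by norm_num : (0 : ℝ) < 2)]
    refine h1.trans ?_
    exact mul_le_mul_of_nonneg_left h5' (abs_nonneg _)
  · have h1 : (m : ℝ) ≤ -1 := by exact_mod_cast (by omega : m ≤ -1)
    have h2 : 0 ≤ (k : ℝ) * al := mul_nonneg (Nat.cast_nonneg k) al_nonneg
    rw [abs_of_nonneg (by linarith)]
    have h3 : (1 : ℝ) / 2 ^ (k + 2) ≤ 1 := by
      rw [div_le_one (by positivity)]
      exact one_le_pow₀ (by norm_num)
    linarith

/-- An integer not divisible by the denominator of a good approximation. -/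
theorem nonmult (r : ℚ) (k : ℕ) (m : ℤ) (hk : ¬ r.den ∣ k) (ε : ℝ)
    (h : (k : ℝ) * |al - r| ≤ ε) : 1 / (r.den : ℝ) - ε ≤ |(k : ℝ) * al - m| := by
  have hden : (0 : ℝ) < r.den := by exact_mod_cast r.den_pos
  have h1 : (1 : ℝ) / r.den ≤ |(k : ℝ) * r - m| := by
    have h2 : (k : ℝ) * r - m = ((k * r.num - m * r.den : ℤ) : ℝ) / r.den := by
      have h3 : (r : ℝ) = r.num / r.den := by
        exact_mod_cast (Rat.num_div_den r).symm
      rw [h3]
      push_cast
      field_simp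
    rw [h2, abs_div, abs_of_pos hden]
    apply div_le_div_of_nonneg_right _ hden.le
    have h3 : (k * r.num - m * r.den : ℤ) ≠ 0 := by
      intro h0
      apply hk
      have h4 : (r.den : ℤ) ∣ k * r.num := ⟨m, by linarith⟩
      have h5 : IsCoprime (r.den : ℤ) r.num := by
        rw [Int.isCoprime_iff_gcd_eq_one]
        have := r.reduced
        rw [Int.gcd_comm]
        simpa [Int.gcd, Nat.Coprime] using this
      exact_mod_cast h5.dvd_of_dvd_mul_right h4
    have h4 : (1 : ℤ) ≤ |(k * r.num - m * r.den : ℤ)| := Int.one_le_abs h3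
    exact_mod_cast h4
  have h2 : |(k : ℝ) * r - m| ≤ |(k : ℝ) * al - m| + k * |al - r| := by
    have h3 : (k : ℝ) * r - m = ((k : ℝ) * al - m) - k * (al - r) := by ring
    rw [h3]
    refine (abs_sub _ _).trans ?_
    rw [abs_mul, Nat.abs_cast]
  linarith

end Pool.Agent.Helper32.HP
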