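import Pool.Agent.Helper32.HP.Cyc
import Pool.Agent.Helper32.HP.Arith

/-!
# Counting cycles and periods of the 5x+1 map
-/

namespace Pool.Agent.Helper32.HP

theorem finite_of_bound {α : Type} (A : Set α) (B : ℝ)
    (h : ∀ F : Finset α, (F : Set α) ⊆ A → (F.card : ℝ) ≤ B) :
    A.Finite ∧ (A.ncard : ℝ) ≤ B := by
  have hfin : A.Finite := by
    by_contra hinf
    obtain ⟨n, hn⟩ := exists_nat_gt B
    obtain ⟨F, hF, hc⟩ := Set.Infinite.exists_subset_card_eq hinf n
    have := h F hF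
    rw [hc] at this
    linarith
  refine ⟨hfin, ?_⟩
  rw [Set.ncard_eq_toFinset_card A hfin]
  exact h _ (by simp)

/-- The number of the cycles with at most `N` elements and `|k log 2 - m log 5| ≥ δ`. -/
theorem card_cycles_le (N : ℕ) (hN : 1 ≤ N) (δ : ℝ) (hδ : 0 < δ) (hδ1 : δ ≤ 1) :
    {S : Finset ℤ | IsCycle S ∧ S.card ≤ N ∧ δ ≤ |lam S|}.Finite ∧
      ({S : Finset ℤ | IsCycle S ∧ S.card ≤ N ∧ δ ≤ |lam S|}.ncard : ℝ) ≤
        (2 + Real.log (N / δ)) / δ :=
  finite_of_bound _ _ fun F hF => packing' N δ hδ hδ1 hN F fun S hS => hF hS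

theorem lam_ge (S : Finset ℤ) : |(S.card : ℝ) * al - ((odds S).card : ℤ)| ≤ |lam S| := by
  unfold lam
  rw [lin_eq]
  push_cast
  have := log5_ge
  nlinarith [abs_nonneg ((S.card : ℝ) * al - ((odds S).card : ℝ))]

theorem card_pos {S : Finset ℤ} (hS : IsCycle S) : 1 ≤ S.card := by
  obtain ⟨n, p, hp, -, rfl⟩ := hS
  apply Finset.card_pos.2
  exact ⟨n, Finset.mem_image.2 ⟨0, Finset.mem_range.2 hp, rfl⟩⟩

/-- Dirichlet approximation -/
theorem dirichlet (N : ℕ) (hN : 1 ≤ N) : ∃ r : ℚ, r.den ≤ 4 * N ∧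
    |al - r| ≤ 1 / ((4 * N + 1) * r.den) ∧ Real.log N ≤ r.den ∧
    ∀ k : ℕ, k ≤ N → (k : ℝ) * |al - r| ≤ 1 / (4 * r.den) := by
  obtain ⟨r, h1, h2⟩ := Real.exists_rat_abs_sub_le_and_den_le al (n := 4 * N) (by omega)
  have hden : (0 : ℝ) < r.den := by exact_mod_cast r.den_pos
  have hN' : (1 : ℝ) ≤ N := by exact_mod_cast hN
  push_cast at h1
  refine ⟨r, h2, h1, ?_, ?_⟩
  · have h3 := al_ge r.den r.num r.den_pos
    have h4 : |(r.den : ℝ) * al - r.num| = r.den * |al - r| := by
      have h5 : (r : ℝ) = r.num / r.den := by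
        exact_mod_cast (Rat.num_div_den r).symm
      rw [← abs_of_pos hden, ← abs_mul, abs_of_pos hden, h5]
      congr 1
      field_simp
    rw [h4] at h3
    have h5 : (r.den : ℝ) * |al - r| ≤ 1 / (4 * N + 1) := by
      calc (r.den : ℝ) * |al - r| ≤ r.den * (1 / ((4 * N + 1) * r.den)) :=
            mul_le_mul_of_nonneg_left h1 hden.le
        _ = 1 / (4 * N + 1) := by field_simp
    have h6 := h3.trans h5
    rw [one_div_le_one_div (by positivity) (by positivity)] at h6
    have h7 : (N : ℝ) ≤ 2 ^ r.den := by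
      have : (2 : ℝ) ^ (r.den + 2) = 4 * 2 ^ r.den := by rw [pow_add]; ring
      rw [this] at h6
      linarith
    calc Real.log N ≤ Real.log (2 ^ r.den) := Real.log_le_log (by linarith) h7
      _ = r.den * Real.log 2 := Real.log_pow _ _
      _ ≤ r.den * 1 := by
          apply mul_le_mul_of_nonneg_left _ hden.le
          have := Real.log_two_lt_d9
          linarith
      _ = r.den := mul_one _
  · intro k hk
    have hk' : (k : ℝ) ≤ N := by exact_mod_cast hk
    calc (k : ℝ) * |al - r| ≤ N * (1 / ((4 * N + 1) * r.den)) := by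
          apply mul_le_mul hk' h1 (abs_nonneg _) (by linarith)
      _ ≤ 1 / (4 * r.den) := by
          rw [mul_one_div, div_le_div_iff₀ (by positivity) (by positivity)]
          nlinarith

theorem log_ge {N : ℕ} (hN : 2 ≤ N) : (0.69 : ℝ) ≤ Real.log N := by
  have h1 := Real.log_two_gt_d9
  have h2 : Real.log 2 ≤ Real.log N := Real.log_le_log (by norm_num) (by exact_mod_cast hN)
  linarith

/-- the bound of `card_cycles_le` for `δ = c / N` -/
theorem bound_one (N : ℕ) (hN : 2 ≤ N) (c : ℝ) (hc : 1 / 6 ≤ c) (hc1 : c ≤ 1) :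
    (2 + Real.log (N / (c / N))) / (c / N) ≤ 100 * (N * Real.log N) := by
  have hN' : (2 : ℝ) ≤ N := by exact_mod_cast hN
  have hl := log_ge hN
  have hc0 : 0 < c := by linarith
  have h1 : (N : ℝ) / (c / N) = N * N * (1 / c) := by field_simp
  have h2 : Real.log (N / (c / N)) = 2 * Real.log N + Real.log (1 / c) := by
    rw [h1, Real.log_mul (by positivity) (by positivity), Real.log_mul (by positivity)
      (by positivity)]
    ring
  have h3 : Real.log (1 / c) ≤ 5 := by
    have h4 := Real.log_le_sub_one_of_pos (show 0 < 1 / c by positivity)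
    have h5 : 1 / c ≤ 6 := by
      rw [div_le_iff₀ hc0]
      linarith
    linarith
  have h6 : 2 + Real.log (N / (c / N)) ≤ 13 * Real.log N := by
    rw [h2]
    linarith
  have h7 : (2 + Real.log (N / (c / N))) / (c / N) = (2 + Real.log (N / (c / N))) * (N / c) := by
    rw [div_eq_mul_inv _ (c / N), inv_div]
  have h8 : (N : ℝ) / c ≤ 6 * N := by
    rw [div_le_iff₀ hc0]
    nlinarith
  rw [h7]
  calc (2 + Real.log (N / (c / N))) * (N / c) ≤ (13 * Real.log N) * (6 * N) := by
        apply mul_le_mul h6 h8 (by positivity) (by linarith)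
    _ ≤ 100 * (N * Real.log N) := by nlinarith [mul_nonneg (by linarith : (0:ℝ) ≤ N) (by linarith : (0:ℝ) ≤ Real.log N)]

/-- a rational approximation with large denominator -/
theorem exists_good (M : ℕ) : ∃ N : ℕ, M ≤ N ∧ 2 ≤ N ∧ ∀ k : ℕ, 1 ≤ k → k ≤ N → ∀ m : ℤ,
    1 / (6 * (N : ℝ)) ≤ |(k : ℝ) * al - m| := by
  obtain ⟨L, hL⟩ : ∃ L, L = 2 * M + 4 := ⟨_, rfl⟩
  obtain ⟨r, h1, h2⟩ := Real.exists_rat_abs_sub_le_and_den_le al (n := 2 ^ (L + 2)) (by positivity)
  have hden : (0 : ℝ) < r.den := by exact_mod_cast r.den_pos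
  push_cast at h1
  have h4 : |(r.den : ℝ) * al - r.num| = r.den * |al - r| := by
    have h5 : (r : ℝ) = r.num / r.den := by
      exact_mod_cast (Rat.num_div_den r).symm
    rw [← abs_of_pos hden, ← abs_mul, abs_of_pos hden, h5]
    congr 1
    field_simp
  have h5 : (r.den : ℝ) * |al - r| ≤ 1 / (2 ^ (L + 2) + 1) := by
    calc (r.den : ℝ) * |al - r| ≤ r.den * (1 / ((2 ^ (L + 2) + 1) * r.den)) :=
          mul_le_mul_of_nonneg_left h1 hden.le
      _ = 1 / (2 ^ (L + 2) + 1) := by field_simp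
  have hbig : L < r.den := by
    by_contra hle
    push Not at hle
    have h3 := al_ge r.den r.num r.den_pos
    rw [h4] at h3
    have h6 := h3.trans h5
    rw [one_div_le_one_div (by positivity) (by positivity)] at h6
    have h7 : (2 : ℝ) ^ (r.den + 2) ≤ 2 ^ (L + 2) :=
      pow_le_pow_right₀ (by norm_num) (by omega)
    linarith
  refine ⟨r.den / 2, by omega, by omega, fun k hk1 hk m => ?_⟩
  obtain ⟨N, hN⟩ : ∃ N, N = r.den / 2 := ⟨_, rfl⟩
  rw [← hN] at hk ⊢
  have hdN : r.den ≤ 3 * N := by omega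
  have hNd : 2 * N ≤ r.den := by omega
  have hdN' : (r.den : ℝ) ≤ 3 * N := by exact_mod_cast hdN
  have hNd' : (2 : ℝ) * N ≤ r.den := by exact_mod_cast hNd
  have hk' : (k : ℝ) ≤ N := by exact_mod_cast hk
  have hN0 : (0 : ℝ) < N := by
    have : 0 < N := by omega
    exact_mod_cast this
  have h2' : (r.den : ℝ) ≤ 2 ^ (L + 2) := by exact_mod_cast h2
  have h7 : (k : ℝ) * |al - r| ≤ 1 / (2 * r.den) := by
    have h8 : |al - r| ≤ 1 / (r.den * r.den) := by
      refine h1.trans ?_
      apply one_div_le_one_div_of_le (by positivity)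
      apply mul_le_mul_of_nonneg_right _ hden.le
      linarith
    calc (k : ℝ) * |al - r| ≤ N * (1 / (r.den * r.den)) := by
          apply mul_le_mul hk' h8 (abs_nonneg _) hN0.le
      _ ≤ 1 / (2 * r.den) := by
          rw [mul_one_div, div_le_div_iff₀ (by positivity) (by positivity)]
          nlinarith
  have h8 := nonmult r k m (fun h => by
    have := Nat.le_of_dvd (by omega) h
    omega) _ h7
  refine le_trans ?_ h8
  have h9 : 1 / (r.den : ℝ) - 1 / (2 * r.den) = 1 / (2 * r.den) := by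
    field_simp
    norm_num
  rw [h9]
  apply one_div_le_one_div_of_le (by positivity)
  linarith

/-- the number of the integers `k ≤ N` with `k α` close to an integer -/
theorem card_bohr (N : ℕ) (r : ℚ) (δ : ℝ) (hδ : 0 ≤ δ)
    (hr : ∀ k : ℕ, k ≤ N → (k : ℝ) * |al - r| ≤ 1 / (4 * r.den)) (A : Finset ℕ)
    (hA : ∀ k ∈ A, k ≤ N ∧ ∃ m : ℤ, |(k : ℝ) * al - m| < δ) :
    (A.card : ℝ) ≤ (2 * δ * r.den + 3 / 2) * (N / r.den + 1) := by
  classical
  have hden : (0 : ℝ) < r.den := by exact_mod_cast r.den_pos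
  have hch : ∀ k : ℕ, ∃ m : ℤ, k ∈ A → |(k : ℝ) * al - m| < δ := by
    intro k
    by_cases hk : k ∈ A
    · obtain ⟨m, hm⟩ := (hA k hk).2
      exact ⟨m, fun _ => hm⟩
    · exact ⟨0, fun h => absurd h hk⟩
  choose m hm using hch
  obtain ⟨B, hB⟩ : ∃ B : ℤ, B = ⌊δ * r.den + 1 / 4⌋ := ⟨_, rfl⟩
  have hB0 : 0 ≤ B := by
    rw [hB]
    apply Int.floor_nonneg.2
    positivity
  have hmaps : ∀ k ∈ A, ((k * r.num - m k * r.den : ℤ), k / r.den) ∈
      Finset.Icc (-B) B ×ˢ Finset.range (N / r.den + 1) := by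
    intro k hk
    have h1 := hm k hk
    have h2 := hr k (hA k hk).1
    have h3 : |((k * r.num - m k * r.den : ℤ) : ℝ)| ≤ δ * r.den + 1 / 4 := by
      have h4 : ((k * r.num - m k * r.den : ℤ) : ℝ) =
          r.den * (((k : ℝ) * al - m k) - k * (al - r)) := by
        have h5 : (r : ℝ) = r.num / r.den := by
          exact_mod_cast (Rat.num_div_den r).symm
        rw [h5]
        push_cast
        field_simp
        ring
      rw [h4, abs_mul, abs_of_pos hden]
      have h6 : |((k : ℝ) * al - m k) - k * (al - r)| ≤ δ + 1 / (4 * r.den) := by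
        refine (abs_sub _ _).trans ?_
        rw [abs_mul (k : ℝ), Nat.abs_cast]
        linarith
      calc (r.den : ℝ) * |((k : ℝ) * al - m k) - k * (al - r)| ≤
            r.den * (δ + 1 / (4 * r.den)) := mul_le_mul_of_nonneg_left h6 hden.le
        _ = δ * r.den + 1 / 4 := by field_simp
    rw [Finset.mem_product, Finset.mem_Icc, Finset.mem_range]
    refine ⟨?_, Nat.lt_succ_of_le (Nat.div_le_div_right (hA k hk).1)⟩
    have h5 : |(k * r.num - m k * r.den : ℤ)| ≤ B := by
      rw [hB]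
      apply Int.le_floor.2
      exact_mod_cast h3
    exact abs_le.1 h5
  have hinj : Set.InjOn (fun k : ℕ => ((k * r.num - m k * r.den : ℤ), k / r.den)) A := by
    intro k hk k' hk' h
    obtain ⟨h1, h2⟩ := Prod.mk.inj h
    have h3 : (r.den : ℤ) ∣ ((k : ℤ) - k') * r.num := ⟨m k - m k', by linarith⟩
    have h4 : IsCoprime (r.den : ℤ) r.num := by
      rw [Int.isCoprime_iff_gcd_eq_one]
      have := r.reduced
      rw [Int.gcd_comm]
      simpa [Int.gcd, Nat.Coprime] using this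
    have h5 := h4.dvd_of_dvd_mul_right h3
    have h6 : k % r.den = k' % r.den := by
      have h7 : (k' : ℤ) ≡ k [ZMOD r.den] := (Int.modEq_iff_dvd).2 h5
      have h8 : k' ≡ k [MOD r.den] := Int.natCast_modEq_iff.1 h7
      exact h8.symm
    rw [← Nat.div_add_mod k r.den, ← Nat.div_add_mod k' r.den, h6, h2]
  have hcard := Finset.card_le_card_of_injOn _ hmaps hinj
  rw [Finset.card_product, Int.card_Icc, Finset.card_range] at hcard
  have h1 : ((B + 1 - -B).toNat : ℝ) ≤ 2 * δ * r.den + 3 / 2 := by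
    have h2 : ((B + 1 - -B).toNat : ℤ) = 2 * B + 1 := by omega
    have h3 : ((B + 1 - -B).toNat : ℝ) = 2 * B + 1 := by exact_mod_cast h2
    have h4 : (B : ℝ) ≤ δ * r.den + 1 / 4 := by
      rw [hB]
      exact Int.floor_le _
    rw [h3]
    linarith
  have h2 : ((N / r.den + 1 : ℕ) : ℝ) ≤ N / r.den + 1 := by
    push_cast
    have := Nat.cast_div_le (α := ℝ) (m := N) (n := r.den)
    linarith
  calc (A.card : ℝ) ≤ (((B + 1 - -B).toNat * (N / r.den + 1) : ℕ) : ℝ) := by exact_mod_cast hcard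
    _ = ((B + 1 - -B).toNat : ℝ) * ((N / r.den + 1 : ℕ) : ℝ) := by push_cast; ring
    _ ≤ _ := mul_le_mul h1 h2 (by positivity) (by positivity)

end Pool.Agent.Helper32.HP
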