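import Pool.Agent.Helper32.HP.Count

/-!
# MP_33355d_nt: the number of the cycles of the 5x+1 map with bounded period
-/

namespace Pool.Agent.Helper32.HP.CountFull

open Pool.Agent.Helper32.HP

theorem main : ∃ C : ℝ,
    (∀ N : ℕ, 2 ≤ N → ∃ q : ℕ, Real.log N ≤ q ∧
      {S : Finset ℤ | IsCycle S ∧ S.card ≤ N ∧ ¬ q ∣ S.card}.Finite ∧
      ({S : Finset ℤ | IsCycle S ∧ S.card ≤ N ∧ ¬ q ∣ S.card}.ncard : ℝ) ≤
        C * (N * Real.log N)) ∧
    ∀ M : ℕ, ∃ N : ℕ, M ≤ N ∧ {S : Finset ℤ | IsCycle S ∧ S.card ≤ N}.Finite ∧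
      ({S : Finset ℤ | IsCycle S ∧ S.card ≤ N}.ncard : ℝ) ≤ C * (N * Real.log N) := by
  refine ⟨100, fun N hN => ?_, fun M => ?_⟩
  · obtain ⟨r, h1, -, h3, h4⟩ := dirichlet N (by omega)
    have hden : (0 : ℝ) < r.den := by exact_mod_cast r.den_pos
    have hN' : (2 : ℝ) ≤ N := by exact_mod_cast hN
    refine ⟨r.den, h3, finite_of_bound _ _ fun F hF => ?_⟩
    refine le_trans ?_ (bound_one N hN (3 / 16) (by norm_num) (by norm_num))
    apply packing' N (3 / 16 / N) (by positivity)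
      (by rw [div_le_one (by linarith)]; linarith) (by omega) F
    intro S hS
    obtain ⟨h5, h6, h7⟩ := hF hS
    refine ⟨h5, h6, ?_⟩
    have h8 := (nonmult r S.card ((odds S).card : ℤ) h7 _ (h4 _ h6)).trans (lam_ge S)
    refine le_trans ?_ h8
    have h9 : 1 / (r.den : ℝ) - 1 / (4 * r.den) = 3 / (4 * r.den) := by
      field_simp
      norm_num
    have h10 : (r.den : ℝ) ≤ 4 * N := by exact_mod_cast h1
    rw [h9, div_div]
    apply div_le_div_of_nonneg_left (by norm_num) (by positivity)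
    linarith
  · obtain ⟨N, hMN, hN, h⟩ := exists_good M
    have hN' : (2 : ℝ) ≤ N := by exact_mod_cast hN
    refine ⟨N, hMN, finite_of_bound _ _ fun F hF => ?_⟩
    refine le_trans ?_ (bound_one N hN (1 / 6) (by norm_num) (by norm_num))
    apply packing' N (1 / 6 / N) (by positivity)
      (by rw [div_le_one (by linarith)]; linarith) (by omega) F
    intro S hS
    obtain ⟨h5, h6⟩ := hF hS
    refine ⟨h5, h6, ?_⟩
    have h8 := (h S.card (card_pos h5) h6 ((odds S).card : ℤ)).trans (lam_ge S)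
    rw [div_div]
    exact h8

end Pool.Agent.Helper32.HP.CountFull
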