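import Mathlib

/-!
# Cycles of the 5x+1 map: harmonic packing

`T5` is the 5x+1 map on the integers, a cycle is a periodic orbit, as a finite set; its least period is
its number of elements. `lam S = k log 2 - m log 5`, where `k` is the number of the elements of `S` and
`m` the number of the odd ones.
-/

namespace Pool.Agent.Helper32.HP

/-- The `5x+1` map: `n / 2` for even `n`, `(5 n + 1) / 2` for odd `n`. -/
def T5 (n : ℤ) : ℤ := if n % 2 = 0 then n / 2 else (5 * n + 1) / 2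

/-- `S` is a periodic orbit `{n, T5 n, .., T5^(p-1) n}` with `p ≥ 1`, `T5^p n = n`. -/
def IsCycle (S : Finset ℤ) : Prop :=
  ∃ (n : ℤ) (p : ℕ), 1 ≤ p ∧ T5^[p] n = n ∧ S = (Finset.range p).image fun i => T5^[i] n

/-- the odd elements -/
def odds (S : Finset ℤ) : Finset ℤ := S.filter fun x => x % 2 = 1

/-- `k log 2 - m log 5` for the number `k` of the elements and the number `m` of the odd elements -/
noncomputable def lam (S : Finset ℤ) : ℝ :=
  (S.card : ℝ) * Real.log 2 - ((odds S).card : ℝ) * Real.log 5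

theorem T5_even {n : ℤ} (h : n % 2 = 0) : (T5 n : ℝ) = n / 2 := by
  unfold T5
  rw [if_pos h]
  obtain ⟨m, rfl⟩ : ∃ m, n = 2 * m := ⟨n / 2, by omega⟩
  have : 2 * m / 2 = m := by omega
  rw [this]
  push_cast
  ring

theorem T5_odd {n : ℤ} (h : n % 2 = 1) : (T5 n : ℝ) = (5 * n + 1) / 2 := by
  unfold T5
  rw [if_neg (by omega)]
  obtain ⟨m, rfl⟩ : ∃ m, n = 2 * m + 1 := ⟨n / 2, by omega⟩
  have : (5 * (2 * m + 1) + 1) / 2 = 5 * m + 3 := by omega
  rw [this]
  push_cast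
  ring

theorem T5_zero : T5 0 = 0 := rfl

theorem iterate_zero (i : ℕ) : T5^[i] 0 = 0 := by
  induction i with
  | zero => rfl
  | succ i ih => rw [Function.iterate_succ_apply, T5_zero, ih]

/-- the elements of a cycle are the points of the orbit of any of its elements -/
theorem IsCycle.mem_iff {S : Finset ℤ} (hS : IsCycle S) {x : ℤ} (hx : x ∈ S) (y : ℤ) :
    y ∈ S ↔ ∃ i, T5^[i] x = y := by
  obtain ⟨n, p, hp, hn, rfl⟩ := hS
  have hmul : ∀ j : ℕ, T5^[p * j] n = n := by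
    intro j
    induction j with
    | zero => rfl
    | succ j ih => rw [Nat.mul_succ, Function.iterate_add_apply, hn, ih]
  have hall : ∀ i : ℕ, T5^[i] n ∈ (Finset.range p).image fun i => T5^[i] n := by
    intro i
    refine Finset.mem_image.2 ⟨i % p, Finset.mem_range.2 (Nat.mod_lt _ hp), ?_⟩
    conv_rhs => rw [← Nat.mod_add_div i p]
    rw [Function.iterate_add_apply, hmul]
  obtain ⟨j, -, rfl⟩ := Finset.mem_image.1 hx
  constructor
  · intro hy
    obtain ⟨i, -, rfl⟩ := Finset.mem_image.1 hy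
    refine ⟨i + (p * j - j), ?_⟩
    rw [← Function.iterate_add_apply, add_assoc, Nat.sub_add_cancel (Nat.le_mul_of_pos_left j hp),
      Function.iterate_add_apply, hmul]
  · rintro ⟨i, rfl⟩
    rw [← Function.iterate_add_apply]
    exact hall _

/-- two cycles with a common element are equal -/
theorem IsCycle.eq_of_mem {S S' : Finset ℤ} (hS : IsCycle S) (hS' : IsCycle S') {x : ℤ}
    (h : x ∈ S) (h' : x ∈ S') : S = S' := by
  ext y
  rw [hS.mem_iff h, hS'.mem_iff h']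

theorem isCycle_zero : IsCycle {0} := ⟨0, 1, le_rfl, rfl, rfl⟩

theorem IsCycle.image {S : Finset ℤ} (hS : IsCycle S) : S.image T5 = S := by
  ext y
  rw [Finset.mem_image]
  constructor
  · rintro ⟨x, hx, rfl⟩
    exact (hS.mem_iff hx _).2 ⟨1, rfl⟩
  · intro hy
    -- the orbit of `T5 y` contains `y`
    have h1 : T5 y ∈ S := (hS.mem_iff hy _).2 ⟨1, rfl⟩
    obtain ⟨i, hi⟩ := (hS.mem_iff h1 y).1 hy
    refine ⟨T5^[i] y, (hS.mem_iff hy _).2 ⟨i, rfl⟩, ?_⟩
    rw [← Function.iterate_succ_apply' T5 i y, Function.iterate_succ_apply, hi]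

theorem IsCycle.sum_comp {S : Finset ℤ} (hS : IsCycle S) (f : ℤ → ℝ) :
    ∑ x ∈ S, f (T5 x) = ∑ x ∈ S, f x := by
  have hinj : Set.InjOn T5 S := by
    apply Finset.injOn_of_card_image_eq
    rw [hS.image]
  conv_rhs => rw [← hS.image]
  rw [Finset.sum_image hinj]

theorem log_bound {x : ℤ} (hx : x ≠ 0) :
    |(Real.log |1 + 1 / (5 * (x : ℝ))|)| ≤ 1 / (4 * |(x : ℝ)|) := by
  rcases lt_or_gt_of_ne hx with h | h
  · -- negative
    have h1 : (x : ℝ) ≤ -1 := by exact_mod_cast (by omega : x ≤ -1)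
    obtain ⟨y, hy⟩ : ∃ y : ℝ, y = -(x : ℝ) := ⟨_, rfl⟩
    have hx' : (x : ℝ) = -y := by rw [hy, neg_neg]
    have hy1 : 1 ≤ y := by rw [hy]; linarith
    rw [hx', abs_neg, abs_of_pos (by linarith : (0 : ℝ) < y)]
    have h2 : 1 + 1 / (5 * -y) = (5 * y - 1) / (5 * y) := by
      field_simp
      ring
    have h3 : 0 < (5 * y - 1) / (5 * y) := by
      apply div_pos <;> linarith
    rw [h2, abs_of_pos h3]
    have h4 : Real.log ((5 * y - 1) / (5 * y)) ≤ 0 := by
      apply Real.log_nonpos h3.le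
      rw [div_le_one (by linarith)]
      linarith
    rw [abs_of_nonpos h4, ← Real.log_inv, inv_div]
    refine (Real.log_le_sub_one_of_pos (by apply div_pos <;> linarith)).trans ?_
    have h5 : 5 * y / (5 * y - 1) - 1 = 1 / (5 * y - 1) := by
      rw [div_sub_one (by linarith)]
      congr 1
      ring
    rw [h5]
    apply one_div_le_one_div_of_le <;> linarith
  · have h1 : (1 : ℝ) ≤ x := by exact_mod_cast (by omega : 1 ≤ x)
    have h2 : (0 : ℝ) < 1 + 1 / (5 * (x : ℝ)) := by positivity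
    have h3 : 0 ≤ Real.log (1 + 1 / (5 * (x : ℝ))) := by
      apply Real.log_nonneg
      have : (0 : ℝ) ≤ 1 / (5 * (x : ℝ)) := by positivity
      linarith
    rw [abs_of_pos h2, abs_of_nonneg h3, abs_of_pos (by linarith : (0 : ℝ) < x)]
    have h4 := Real.log_le_sub_one_of_pos h2
    have h5 : 1 + 1 / (5 * (x : ℝ)) - 1 = 1 / (5 * (x : ℝ)) := by ring
    rw [h5] at h4
    refine h4.trans ?_
    apply one_div_le_one_div_of_le <;> linarith

/-- the product formula -/
theorem IsCycle.lam_eq {S : Finset ℤ} (hS : IsCycle S) (h0 : (0 : ℤ) ∉ S) :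
    lam S = ∑ x ∈ odds S, Real.log |1 + 1 / (5 * (x : ℝ))| := by
  have hne : ∀ x ∈ S, (x : ℝ) ≠ 0 := by
    intro x hx h
    have : x = 0 := by exact_mod_cast h
    rw [this] at hx
    exact h0 hx
  have h1 := hS.sum_comp fun x => Real.log |(x : ℝ)|
  have h2 : ∀ x ∈ S, Real.log |(T5 x : ℝ)| = Real.log |(x : ℝ)| +
      (if x % 2 = 1 then Real.log 5 + Real.log |1 + 1 / (5 * (x : ℝ))| else 0) - Real.log 2 := by
    intro x hx
    have hx0 := hne x hx
    by_cases ho : x % 2 = 1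
    · have h3 : (T5 x : ℝ) = x * 5 * (1 + 1 / (5 * (x : ℝ))) / 2 := by
        rw [T5_odd ho]
        field_simp
      have h4 : (1 + 1 / (5 * (x : ℝ))) ≠ 0 := by
        intro h
        have h5 : 5 * (x : ℝ) + 1 = 0 := by
          field_simp at h
          linarith
        have h6 : 5 * x + 1 = 0 := by exact_mod_cast h5
        omega
      rw [if_pos ho, h3, abs_div, abs_mul, abs_mul, Real.log_div, Real.log_mul, Real.log_mul]
      · rw [abs_of_pos (by norm_num : (0 : ℝ) < 5), abs_of_pos (by norm_num : (0 : ℝ) < 2)]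
        ring
      · exact abs_ne_zero.2 hx0
      · norm_num
      · exact mul_ne_zero (abs_ne_zero.2 hx0) (by norm_num)
      · exact abs_ne_zero.2 h4
      · exact mul_ne_zero (mul_ne_zero (abs_ne_zero.2 hx0) (by norm_num)) (abs_ne_zero.2 h4)
      · norm_num
    · rw [if_neg ho, T5_even (by omega), abs_div, Real.log_div (abs_ne_zero.2 hx0) (by norm_num),
        abs_of_pos (by norm_num : (0 : ℝ) < 2)]
      ring
  have h3 : ∑ x ∈ S, Real.log |(T5 x : ℝ)| = ∑ x ∈ S, Real.log |(x : ℝ)| := h1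
  rw [Finset.sum_congr rfl h2, Finset.sum_sub_distrib, Finset.sum_add_distrib,
    ← Finset.sum_filter, Finset.sum_add_distrib, Finset.sum_const, Finset.sum_const,
    nsmul_eq_mul, nsmul_eq_mul] at h3
  unfold lam odds
  linarith

theorem IsCycle.abs_lam_le {S : Finset ℤ} (hS : IsCycle S) (h0 : (0 : ℤ) ∉ S) :
    |lam S| ≤ ∑ x ∈ S, 1 / (4 * |(x : ℝ)|) := by
  rw [hS.lam_eq h0]
  refine (Finset.abs_sum_le_sum_abs _ _).trans ?_
  refine (Finset.sum_le_sum fun x hx => ?_ : _ ≤ ∑ x ∈ odds S, 1 / (4 * |(x : ℝ)|)).trans ?_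
  · have hxS : x ∈ S := (Finset.mem_filter.1 hx).1
    exact log_bound (fun h => h0 (h ▸ hxS))
  · refine Finset.sum_le_sum_of_subset_of_nonneg (Finset.filter_subset _ _) fun x _ _ => ?_
    positivity

/-- the harmonic sum over the integers with `1 ≤ |x| ≤ K` -/
theorem harm_le (A : Finset ℤ) (K : ℕ) (h0 : (0 : ℤ) ∉ A) (hK : ∀ x ∈ A, |x| ≤ K) :
    ∑ x ∈ A, 1 / |(x : ℝ)| ≤ 2 * (1 + Real.log K) := by
  have hsub : A ⊆ (Finset.Icc 1 K).image (fun n : ℕ => (n : ℤ)) ∪
      (Finset.Icc 1 K).image (fun n : ℕ => -(n : ℤ)) := by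
    intro x hx
    have h1 := hK x hx
    have h2 : x ≠ 0 := fun h => h0 (h ▸ hx)
    rw [abs_le] at h1
    rw [Finset.mem_union, Finset.mem_image, Finset.mem_image]
    rcases lt_or_gt_of_ne h2 with h | h
    · right
      refine ⟨(-x).toNat, Finset.mem_Icc.2 ⟨by omega, by omega⟩, by omega⟩
    · left
      refine ⟨x.toNat, Finset.mem_Icc.2 ⟨by omega, by omega⟩, by omega⟩
  have hharm : ∑ n ∈ Finset.Icc 1 K, 1 / (n : ℝ) ≤ 1 + Real.log K := by
    have h1 := harmonic_le_one_add_log K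
    have h2 : ((harmonic K : ℚ) : ℝ) = ∑ n ∈ Finset.Icc 1 K, 1 / (n : ℝ) := by
      rw [harmonic_eq_sum_Icc]
      push_cast
      exact Finset.sum_congr rfl fun n _ => (one_div _).symm
    rw [h2] at h1
    exact h1
  refine (Finset.sum_le_sum_of_subset_of_nonneg hsub fun x _ _ => by positivity).trans ?_
  have hui := Finset.sum_union_inter (s₁ := (Finset.Icc 1 K).image (fun n : ℕ => (n : ℤ)))
    (s₂ := (Finset.Icc 1 K).image (fun n : ℕ => -(n : ℤ))) (f := fun x : ℤ => 1 / |(x : ℝ)|)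
  have hnn : 0 ≤ ∑ x ∈ (Finset.Icc 1 K).image (fun n : ℕ => (n : ℤ)) ∩
      (Finset.Icc 1 K).image (fun n : ℕ => -(n : ℤ)), 1 / |(x : ℝ)| :=
    Finset.sum_nonneg fun x _ => by positivity
  have ha : ∑ x ∈ (Finset.Icc 1 K).image (fun n : ℕ => (n : ℤ)), 1 / |(x : ℝ)| =
      ∑ n ∈ Finset.Icc 1 K, 1 / (n : ℝ) := by
    rw [Finset.sum_image (fun a _ b _ h => by exact_mod_cast h)]
    refine Finset.sum_congr rfl fun n _ => ?_
    rw [Int.cast_natCast, abs_of_nonneg (Nat.cast_nonneg n)]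
  have hb : ∑ x ∈ (Finset.Icc 1 K).image (fun n : ℕ => -(n : ℤ)), 1 / |(x : ℝ)| =
      ∑ n ∈ Finset.Icc 1 K, 1 / (n : ℝ) := by
    rw [Finset.sum_image (fun a _ b _ h => by
      have h' : (a : ℤ) = b := neg_injective h
      exact_mod_cast h')]
    refine Finset.sum_congr rfl fun n _ => ?_
    rw [Int.cast_neg, abs_neg, Int.cast_natCast, abs_of_nonneg (Nat.cast_nonneg n)]
  rw [ha, hb] at hui
  linarith

/-- **Harmonic packing.** -/
theorem packing (N : ℕ) (δ : ℝ) (hδ : 0 < δ) (hδN : δ ≤ N) (F : Finset (Finset ℤ))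
    (hF : ∀ S ∈ F, IsCycle S ∧ (0 : ℤ) ∉ S ∧ S.card ≤ N ∧ δ ≤ |lam S|) :
    (F.card : ℝ) ≤ (1 + Real.log (N / δ)) / δ := by
  obtain ⟨K, hK⟩ : ∃ K : ℕ, K = ⌊(N : ℝ) / (2 * δ)⌋₊ := ⟨_, rfl⟩
  have hN : (0 : ℝ) ≤ N := Nat.cast_nonneg N
  have hK1 : (K : ℝ) ≤ N / (2 * δ) := by
    rw [hK]
    exact Nat.floor_le (by positivity)
  have hK2 : (N : ℝ) / (2 * δ) < K + 1 := by
    rw [hK]
    exact Nat.lt_floor_add_one _
  -- the small part of a cycle
  obtain ⟨sm, hsm⟩ : ∃ sm : Finset ℤ → Finset ℤ, ∀ S, sm S = S.filter fun x => |x| ≤ (K : ℤ) :=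
    ⟨fun S => S.filter fun x => |x| ≤ (K : ℤ), fun S => rfl⟩
  have hmass : ∀ S ∈ F, 2 * δ ≤ ∑ x ∈ sm S, 1 / |(x : ℝ)| := by
    intro S hS
    obtain ⟨hc, h0, hcard, hl⟩ := hF S hS
    have h1 := hl.trans (hc.abs_lam_le h0)
    have h2 : ∑ x ∈ S, 1 / (4 * |(x : ℝ)|) = (∑ x ∈ S, 1 / |(x : ℝ)|) / 4 := by
      rw [Finset.sum_div]
      refine Finset.sum_congr rfl fun x _ => ?_
      rw [one_div, one_div, mul_inv, div_eq_mul_inv, mul_comm]
    have h3 : ∑ x ∈ S, 1 / |(x : ℝ)| = (∑ x ∈ sm S, 1 / |(x : ℝ)|) +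
        ∑ x ∈ S.filter (fun x => ¬ |x| ≤ (K : ℤ)), 1 / |(x : ℝ)| := by
      rw [hsm]
      exact (Finset.sum_filter_add_sum_filter_not S _ _).symm
    have h4 : ∑ x ∈ S.filter (fun x => ¬ |x| ≤ (K : ℤ)), 1 / |(x : ℝ)| ≤ 2 * δ := by
      have h5 : ∀ x ∈ S.filter (fun x => ¬ |x| ≤ (K : ℤ)), 1 / |(x : ℝ)| ≤ 2 * δ / N := by
        intro x hx
        have h6 := (Finset.mem_filter.1 hx).2
        have h7 : ((K : ℤ) + 1 : ℤ) ≤ |x| := by omega
        have h8 : ((K : ℝ) + 1) ≤ |(x : ℝ)| := by exact_mod_cast h7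
        rcases Nat.eq_zero_or_pos N with hN0 | hN0
        · exfalso
          rw [hN0] at hδN
          simp at hδN
          linarith
        · have hN' : (0 : ℝ) < N := by exact_mod_cast hN0
          rw [div_le_div_iff₀ (by linarith [Nat.cast_nonneg (α := ℝ) K]) hN', one_mul]
          have h9 : (N : ℝ) < (K + 1) * (2 * δ) := by
            rw [div_lt_iff₀ (by positivity)] at hK2
            exact hK2
          have h10 : (K + 1) * (2 * δ) ≤ |(x : ℝ)| * (2 * δ) :=
            mul_le_mul_of_nonneg_right h8 (by positivity)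
          linarith
      refine (Finset.sum_le_card_nsmul _ _ _ h5).trans ?_
      rw [nsmul_eq_mul]
      have h6 : ((S.filter (fun x => ¬ |x| ≤ (K : ℤ))).card : ℝ) ≤ N := by
        exact_mod_cast (Finset.card_filter_le _ _).trans hcard
      rcases Nat.eq_zero_or_pos N with hN0 | hN0
      · exfalso
        rw [hN0] at hδN
        simp at hδN
        linarith
      · have hN' : (0 : ℝ) < N := by exact_mod_cast hN0
        calc ((S.filter (fun x => ¬ |x| ≤ (K : ℤ))).card : ℝ) * (2 * δ / N)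
            ≤ N * (2 * δ / N) := mul_le_mul_of_nonneg_right h6 (by positivity)
          _ = 2 * δ := by field_simp
    rw [h2, h3] at h1
    linarith
  have hdisj : Set.PairwiseDisjoint (F : Set (Finset ℤ)) sm := by
    intro S hS S' hS' hne
    rw [Function.onFun, Finset.disjoint_left]
    intro x hx hx'
    rw [hsm] at hx hx'
    exact hne ((hF S hS).1.eq_of_mem (hF S' hS').1 (Finset.mem_filter.1 hx).1
      (Finset.mem_filter.1 hx').1)
  have htot : (F.card : ℝ) * (2 * δ) ≤ 2 * (1 + Real.log K) := by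
    calc (F.card : ℝ) * (2 * δ) = ∑ S ∈ F, 2 * δ := by rw [Finset.sum_const, nsmul_eq_mul]
      _ ≤ ∑ S ∈ F, ∑ x ∈ sm S, 1 / |(x : ℝ)| := Finset.sum_le_sum hmass
      _ = ∑ x ∈ F.biUnion sm, 1 / |(x : ℝ)| := (Finset.sum_biUnion hdisj).symm
      _ ≤ 2 * (1 + Real.log K) := by
        apply harm_le
        · intro h
          obtain ⟨S, hS, h1⟩ := Finset.mem_biUnion.1 h
          rw [hsm] at h1
          exact (hF S hS).2.1 (Finset.mem_filter.1 h1).1
        · intro x hx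
          obtain ⟨S, hS, h1⟩ := Finset.mem_biUnion.1 hx
          rw [hsm] at h1
          exact (Finset.mem_filter.1 h1).2
  have hlog : Real.log K ≤ Real.log (N / δ) := by
    rcases Nat.eq_zero_or_pos K with hK0 | hK0
    · rw [hK0, Nat.cast_zero, Real.log_zero]
      apply Real.log_nonneg
      rw [le_div_iff₀ hδ, one_mul]
      exact hδN
    · apply Real.log_le_log (by exact_mod_cast hK0)
      refine hK1.trans ?_
      apply div_le_div_of_nonneg_left hN hδ
      linarith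
  rw [le_div_iff₀ hδ]
  linarith

/-- The only cycle containing `0` is `{0}`. -/
theorem IsCycle.eq_zero {S : Finset ℤ} (hS : IsCycle S) (h : (0 : ℤ) ∈ S) : S = {0} :=
  hS.eq_of_mem isCycle_zero h (Finset.mem_singleton_self 0)

/-- **Harmonic packing**, with the fixed point `0`. -/
theorem packing' (N : ℕ) (δ : ℝ) (hδ : 0 < δ) (hδ1 : δ ≤ 1) (hN : 1 ≤ N)
    (F : Finset (Finset ℤ)) (hF : ∀ S ∈ F, IsCycle S ∧ S.card ≤ N ∧ δ ≤ |lam S|) :
    (F.card : ℝ) ≤ (2 + Real.log (N / δ)) / δ := by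
  have hN1 : (1 : ℝ) ≤ N := by exact_mod_cast hN
  have h1 := packing N δ hδ (hδ1.trans hN1) (F.erase {0}) (by
    intro S hS
    obtain ⟨h2, h3⟩ := Finset.mem_erase.1 hS
    obtain ⟨h4, h5, h6⟩ := hF S h3
    exact ⟨h4, fun h => h2 (h4.eq_zero h), h5, h6⟩)
  have h2 : (F.card : ℝ) ≤ (F.erase {0}).card + 1 := by
    have h5 := Finset.pred_card_le_card_erase (s := F) (a := ({0} : Finset ℤ))
    have h6 : F.card ≤ (F.erase {0}).card + 1 := by omega
    exact_mod_cast h6
  have h3 : 1 ≤ 1 / δ := by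
    rw [le_div_iff₀ hδ, one_mul]
    exact hδ1
  have h4 : (2 + Real.log (N / δ)) / δ = (1 + Real.log (N / δ)) / δ + 1 / δ := by ring
  rw [h4]
  linarith

end Pool.Agent.Helper32.HP
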