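import Pool.Agent.Helper32.HP.Count

/-!
# Periods of the cycles of the 5x+1 map
-/

namespace Pool.Agent.Helper32.HP

/-- the number of the periods of the cycles with `|lam| ≥ 3 / (4 √N)` -/
theorem periods_far (N : ℕ) (hN : 2 ≤ N) (A : Finset ℕ)
    (hA : ∀ k ∈ A, ∃ S, IsCycle S ∧ S.card = k ∧ k ≤ N ∧ 3 / (4 * √(N : ℝ)) ≤ |lam S|) :
    (A.card : ℝ) ≤ 8 * (√(N : ℝ) * Real.log N) := by
  classical
  have hN' : (2 : ℝ) ≤ N := by exact_mod_cast hN
  have hl := log_ge hN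
  have hs : 1 ≤ √(N : ℝ) := Real.one_le_sqrt.2 (by linarith)
  have hs0 : 0 < √(N : ℝ) := by linarith
  obtain ⟨δ, hδ⟩ : ∃ δ : ℝ, δ = 3 / (4 * √(N : ℝ)) := ⟨_, rfl⟩
  have hδ0 : 0 < δ := by rw [hδ]; positivity
  have hδ1 : δ ≤ 1 := by
    rw [hδ, div_le_one (by positivity)]
    linarith
  have hch : ∀ k : ℕ, ∃ S : Finset ℤ, k ∈ A →
      (IsCycle S ∧ S.card = k ∧ k ≤ N ∧ 3 / (4 * √(N : ℝ)) ≤ |lam S|) := by
    intro k
    by_cases hk : k ∈ A
    · obtain ⟨S, hS⟩ := hA k hk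
      exact ⟨S, fun _ => hS⟩
    · exact ⟨∅, fun h => absurd h hk⟩
  choose S hS using hch
  have hinj : Set.InjOn S A := by
    intro k hk k' hk' h
    rw [← (hS k hk).2.1, ← (hS k' hk').2.1, h]
  have h1 := packing' N δ hδ0 hδ1 (by omega) (A.image S) (by
    intro T hT
    obtain ⟨k, hk, rfl⟩ := Finset.mem_image.1 hT
    obtain ⟨h1, h2, h3, h4⟩ := hS k hk
    exact ⟨h1, by omega, by rw [hδ]; exact h4⟩)
  rw [Finset.card_image_of_injOn hinj] at h1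
  refine h1.trans ?_
  have h2 : (N : ℝ) / δ = 4 / 3 * (N * √(N : ℝ)) := by
    rw [hδ]
    field_simp
  have h3 : Real.log (N / δ) = Real.log (4 / 3) + (3 / 2) * Real.log N := by
    rw [h2, Real.log_mul (by norm_num) (by positivity), Real.log_mul (by positivity)
      (by positivity), Real.log_sqrt (by linarith)]
    ring
  have h4 : Real.log (4 / 3) ≤ 1 / 3 := by
    have := Real.log_le_sub_one_of_pos (show (0 : ℝ) < 4 / 3 by norm_num)
    linarith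
  have h5 : (2 + Real.log (N / δ)) / δ = (2 + Real.log (N / δ)) * (4 / 3 * √(N : ℝ)) := by
    rw [hδ]
    field_simp
  rw [h5]
  have h6 : 2 + Real.log (N / δ) ≤ 5 * Real.log N := by
    rw [h3]
    linarith
  have h7 : 0 ≤ √(N : ℝ) * Real.log N := mul_nonneg hs0.le (by linarith)
  calc (2 + Real.log (N / δ)) * (4 / 3 * √(N : ℝ)) ≤ (5 * Real.log N) * (4 / 3 * √(N : ℝ)) :=
        mul_le_mul_of_nonneg_right h6 (by positivity)
    _ ≤ 8 * (√(N : ℝ) * Real.log N) := by nlinarith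

/-- If the denominator is at least `√N` there are few periods up to `N`. -/
theorem periods_large (N : ℕ) (hN : 2 ≤ N) (r : ℚ) (hr : r.den ≤ 4 * N)
    (hr' : √(N : ℝ) ≤ r.den)
    (hrk : ∀ k : ℕ, k ≤ N → (k : ℝ) * |al - r| ≤ 1 / (4 * r.den)) (A : Finset ℕ)
    (hA : ∀ k ∈ A, k ≤ N ∧ ∃ S, IsCycle S ∧ S.card = k) :
    (A.card : ℝ) ≤ 30 * (√(N : ℝ) * Real.log N) := by
  classical
  have hN' : (2 : ℝ) ≤ N := by exact_mod_cast hN
  have hl := log_ge hN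
  have hs : 1 ≤ √(N : ℝ) := Real.one_le_sqrt.2 (by linarith)
  have hs0 : 0 < √(N : ℝ) := by linarith
  have hss : √(N : ℝ) * √(N : ℝ) = N := Real.mul_self_sqrt (by linarith)
  have hden : (0 : ℝ) < r.den := by exact_mod_cast r.den_pos
  have hden4 : (r.den : ℝ) ≤ 4 * N := by exact_mod_cast hr
  obtain ⟨A₁, hA₁⟩ : ∃ A₁ : Finset ℕ, A₁ = A.filter fun k =>
    ∃ S, IsCycle S ∧ S.card = k ∧ k ≤ N ∧ 3 / (4 * √(N : ℝ)) ≤ |lam S| := ⟨_, rfl⟩
  obtain ⟨A₂, hA₂⟩ : ∃ A₂ : Finset ℕ, A₂ = A.filter fun k =>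
    ¬ ∃ S, IsCycle S ∧ S.card = k ∧ k ≤ N ∧ 3 / (4 * √(N : ℝ)) ≤ |lam S| := ⟨_, rfl⟩
  have hsum : (A.card : ℝ) = A₁.card + A₂.card := by
    rw [hA₁, hA₂]
    exact_mod_cast (Finset.card_filter_add_card_filter_not _).symm
  have h1 : (A₁.card : ℝ) ≤ 8 * (√(N : ℝ) * Real.log N) := by
    apply periods_far N hN
    intro k hk
    rw [hA₁] at hk
    exact (Finset.mem_filter.1 hk).2
  have h2 : (A₂.card : ℝ) ≤ (2 * (3 / (4 * √(N : ℝ))) * r.den + 3 / 2) * (N / r.den + 1) := by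
    apply card_bohr N r _ (by positivity) hrk
    intro k hk
    rw [hA₂] at hk
    obtain ⟨hk1, hk2⟩ := Finset.mem_filter.1 hk
    obtain ⟨hkN, S, hS, hc⟩ := hA k hk1
    refine ⟨hkN, ((odds S).card : ℤ), ?_⟩
    have h3 : |lam S| < 3 / (4 * √(N : ℝ)) := by
      by_contra hge
      push Not at hge
      exact hk2 ⟨S, hS, hc, hkN, hge⟩
    rw [← hc]
    exact (lam_ge S).trans_lt h3
  have h3 : (2 * (3 / (4 * √(N : ℝ))) * r.den + 3 / 2) * (N / r.den + 1) ≤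
      11 * √(N : ℝ) := by
    have e1 : (N : ℝ) / r.den ≤ √(N : ℝ) := by
      rw [div_le_iff₀ hden]
      nlinarith
    have e2 : (r.den : ℝ) / √(N : ℝ) ≤ 4 * √(N : ℝ) := by
      rw [div_le_iff₀ hs0]
      nlinarith
    have e3 : (2 * (3 / (4 * √(N : ℝ))) * r.den + 3 / 2) * (N / r.den + 1) =
        3 / 2 * √(N : ℝ) + 3 / 2 * (r.den / √(N : ℝ)) + 3 / 2 * (N / r.den) + 3 / 2 := by
      have e4 : (2 * (3 / (4 * √(N : ℝ))) * r.den) * (N / r.den) = 3 / 2 * √(N : ℝ) := by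
        have : (N : ℝ) = √(N : ℝ) * √(N : ℝ) := hss.symm
        field_simp
        nlinarith
      have e5 : 2 * (3 / (4 * √(N : ℝ))) * r.den = 3 / 2 * (r.den / √(N : ℝ)) := by
        field_simp
        norm_num
      calc (2 * (3 / (4 * √(N : ℝ))) * r.den + 3 / 2) * (N / r.den + 1) =
            (2 * (3 / (4 * √(N : ℝ))) * r.den) * (N / r.den) +
              2 * (3 / (4 * √(N : ℝ))) * r.den + 3 / 2 * (N / r.den) + 3 / 2 := by ring
        _ = _ := by rw [e4, e5]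
    rw [e3]
    linarith
  have h4 : √(N : ℝ) ≤ 2 * (√(N : ℝ) * Real.log N) := by nlinarith
  rw [hsum]
  linarith

/-- If the denominator is less than `√N` then there are few periods up to `N` which are not
divisible by it. -/
theorem periods_small (N : ℕ) (hN : 2 ≤ N) (r : ℚ) (hr' : (r.den : ℝ) ≤ √(N : ℝ))
    (hrk : ∀ k : ℕ, k ≤ N → (k : ℝ) * |al - r| ≤ 1 / (4 * r.den)) (A : Finset ℕ)
    (hA : ∀ k ∈ A, k ≤ N ∧ ¬ r.den ∣ k ∧ ∃ S, IsCycle S ∧ S.card = k) :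
    (A.card : ℝ) ≤ 8 * (√(N : ℝ) * Real.log N) := by
  have hden : (0 : ℝ) < r.den := by exact_mod_cast r.den_pos
  apply periods_far N hN
  intro k hk
  obtain ⟨hkN, hnd, S, hS, hc⟩ := hA k hk
  refine ⟨S, hS, hc, hkN, ?_⟩
  have h1 := nonmult r k ((odds S).card : ℤ) hnd _ (hrk k hkN)
  have h2 := lam_ge S
  rw [hc] at h2
  refine le_trans ?_ (h1.trans h2)
  have h3 : 1 / (r.den : ℝ) - 1 / (4 * r.den) = 3 / (4 * r.den) := by
    field_simp
    norm_num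
  rw [h3]
  apply div_le_div_of_nonneg_left (by norm_num) (by positivity)
  linarith

end Pool.Agent.Helper32.HP
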