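import Pool.Agent.Helper32.HP.Per

/-!
# MP_33355d_nt: the periods of the cycles of the 5x+1 map are sparse
-/

namespace Pool.Agent.Helper32.HP.PerFull

open Pool.Agent.Helper32.HP

theorem main : ∃ C : ℝ,
    (∀ N : ℕ, 2 ≤ N → ∃ q : ℕ, Real.log N ≤ q ∧
      ({k : ℕ | k ≤ N ∧ ¬ q ∣ k ∧ ∃ S : Finset ℤ, IsCycle S ∧ S.card = k}.ncard : ℝ) ≤
        C * (√(N : ℝ) * Real.log N)) ∧
    ∀ M : ℕ, ∃ N : ℕ, M ≤ N ∧
      ({k : ℕ | k ≤ N ∧ ∃ S : Finset ℤ, IsCycle S ∧ S.card = k}.ncard : ℝ) ≤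
        C * (√(N : ℝ) * Real.log N) := by
  refine ⟨30, fun N hN => ?_, fun M => ?_⟩
  · obtain ⟨r, h1, -, h3, h4⟩ := dirichlet N (by omega)
    have hN' : (2 : ℝ) ≤ N := by exact_mod_cast hN
    have hpos : 0 ≤ √(N : ℝ) * Real.log N :=
      mul_nonneg (Real.sqrt_nonneg _) (by have := log_ge hN; linarith)
    refine ⟨r.den, h3, (finite_of_bound _ _ fun F hF => ?_).2⟩
    rcases le_total √(N : ℝ) r.den with h5 | h5
    · exact periods_large N hN r h1 h5 h4 F fun k hk => ⟨(hF hk).1, (hF hk).2.2⟩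
    · refine (periods_small N hN r h5 h4 F fun k hk => hF hk).trans ?_
      linarith
  · obtain ⟨L, hML, hL, h⟩ := exists_good M
    have hL' : (2 : ℝ) ≤ L := by exact_mod_cast hL
    obtain ⟨N, hN⟩ : ∃ N : ℕ, N = L ^ 2 := ⟨_, rfl⟩
    have hLN : L ≤ N := by rw [hN]; nlinarith
    have hN2 : 2 ≤ N := hL.trans hLN
    have hsq : √(N : ℝ) = L := by
      rw [hN]
      push_cast
      exact Real.sqrt_sq (by linarith)
    obtain ⟨r, h1, h2, -, h4⟩ := dirichlet N (by omega)
    have hden : (0 : ℝ) < r.den := by exact_mod_cast r.den_pos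
    refine ⟨N, hML.trans hLN, (finite_of_bound _ _ fun F hF => ?_).2⟩
    refine periods_large N hN2 r h1 ?_ h4 F fun k hk => hF hk
    rw [hsq]
    by_contra hlt
    push Not at hlt
    have h5 : r.den ≤ L := by
      have : r.den < L := by exact_mod_cast hlt
      omega
    have h6 := h r.den r.den_pos h5 r.num
    have h7 : |(r.den : ℝ) * al - r.num| = r.den * |al - r| := by
      have h5 : (r : ℝ) = r.num / r.den := by
        exact_mod_cast (Rat.num_div_den r).symm
      rw [← abs_of_pos hden, ← abs_mul, abs_of_pos hden, h5]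
      congr 1
      field_simp
    have h8 : (r.den : ℝ) * |al - r| ≤ 1 / (4 * N + 1) := by
      calc (r.den : ℝ) * |al - r| ≤ r.den * (1 / ((4 * N + 1) * r.den)) :=
            mul_le_mul_of_nonneg_left h2 hden.le
        _ = 1 / (4 * N + 1) := by field_simp
    rw [h7] at h6
    have h9 := h6.trans h8
    rw [one_div_le_one_div (by positivity) (by positivity)] at h9
    rw [hN] at h9
    push_cast at h9
    nlinarith

end Pool.Agent.Helper32.HP.PerFull
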